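import Pool.Agent.Q102.FSB.Main

/-!
# The diameters of friends-and-strangers graphs of trees are not polynomially bounded

`FS(T, Y)` with `T` a broom (a path with many leaves attached to one end) and `Y` the incidence
graph of an affine plane has a component of diameter at least `exp (c √n)`.
-/

set_option autoImplicit false

namespace Pool.Agent.Results.MP_5b8c2d_co.BroomExponential

open Q102.FSB

/-- There is a constant `c > 0` such that for every real `K` and every `N` there are `n ≥ N`,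
`n ≥ 2`, a broom `T` on `n` vertices, which is a tree, a graph `Y` on `n` vertices, and two
bijections `σ, τ` in one component of `FS(T, Y)` whose distance is larger than `n ^ K`, and is at
least `exp (c √n)`. -/
theorem result : ∃ c : ℝ, 0 < c ∧ ∀ (K : ℝ) (N : ℕ), ∃ n : ℕ, N ≤ n ∧ 2 ≤ n ∧
    ∃ k : ℕ, (broom n k).IsTree ∧ ∃ (Y : SimpleGraph (Fin n)) (σ τ : Fin n ≃ Fin n),
      (FS (broom n k) Y).Reachable σ τ ∧
      (n : ℝ) ^ K < ((FS (broom n k) Y).dist σ τ : ℝ) ∧
      Real.exp (c * Real.sqrt n) ≤ ((FS (broom n k) Y).dist σ τ : ℝ) := by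
  refine ⟨1 / 10, by norm_num, fun K N => ?_⟩
  obtain ⟨p, hp, h2, hN, hlt⟩ := arith ⌈K⌉₊ N
  have : Fact p.Prime := ⟨hp⟩
  obtain ⟨Y, σ, τ, hr, hd⟩ := exists_far p h2
  have hp2 : p ≤ 2 * p ^ 2 := by nlinarith
  refine ⟨2 * p ^ 2, by omega, by omega, p - 1, broom_isTree (by omega), Y, σ, τ, hr, ?_, ?_⟩
  · have h1 : ((2 * p ^ 2 : ℕ) : ℝ) ^ K ≤ ((2 * p ^ 2 : ℕ) : ℝ) ^ ⌈K⌉₊ := by
      rw [← Real.rpow_natCast]
      apply Real.rpow_le_rpow_of_exponent_le _ (Nat.le_ceil K)
      have : 1 ≤ 2 * p ^ 2 := by omega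
      exact_mod_cast this
    have h3 : ((2 * p ^ 2 : ℕ) : ℝ) ^ ⌈K⌉₊ < ((FS (broom (2 * p ^ 2) (p - 1)) Y).dist σ τ : ℝ) := by
      exact_mod_cast lt_of_lt_of_le hlt hd
    linarith
  · refine le_trans (exp_bound h2) ?_
    exact_mod_cast hd

end Pool.Agent.Results.MP_5b8c2d_co.BroomExponential
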